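import Mathlib

/-!
Definitions: von Neumann dimension of kernels over a group, right-angled Artin groups, free
actions on trees, amenable actions, and the class of groups used in the statement.
-/

namespace Pool.Agent.MP_c6eade_gt

open scoped InnerProductSpace

universe u

/-- The Hilbert space `L²(G)`. -/
abbrev L2 (G : Type u) : Type u := lp (fun _ : G => ℂ) 2

/-- The Hilbert space `L²(G)^r`. -/
abbrev L2n (G : Type u) (r : ℕ) : Type u := PiLp 2 (fun _ : Fin r => L2 G)

open Classical in
/-- The vector of `L²(G)^r` whose `i`-th entry is the unit element `e` and whose other entries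
vanish. -/
noncomputable def unitVec (G : Type u) [Group G] {r : ℕ} (i : Fin r) : L2n G r :=
  PiLp.single 2 i (lp.single 2 (1 : G) (1 : ℂ))

/-- The von Neumann dimension of (the closure of) a subspace of `L²(G)^r`: the trace
`∑ i, ⟨P e_i, e_i⟩` of the orthogonal projection `P` onto it. -/
noncomputable def vnDim {G : Type u} [Group G] {r : ℕ} (W : Submodule ℂ (L2n G r)) : ℝ :=
  ∑ i : Fin r, (⟪unitVec G i, W.topologicalClosure.starProjection (unitVec G i)⟫_ℂ).re

/-- The kernel of right multiplication by `A` on row vectors, `L²(G)^r → L²(G)^s`; the `j`-th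
entry of `v A` is the function `g ↦ ∑ i, ∑ h, v i (g h⁻¹) * A i j h`. -/
def kerRight {G : Type u} [Group G] {r s : ℕ} (A : Matrix (Fin r) (Fin s) (MonoidAlgebra ℂ G)) :
    Submodule ℂ (L2n G r) where
  carrier := {v | ∀ (j : Fin s) (g : G),
    ∑ i : Fin r, ∑ h ∈ (A i j).coeff.support, v i (g * h⁻¹) * (A i j).coeff h = 0}
  zero_mem' := by simp
  add_mem' := by
    intro v w hv hw j g
    have := congrArg₂ (· + ·) (hv j g) (hw j g)
    simpa [add_mul, Finset.sum_add_distrib] using this
  smul_mem' := by
    intro c v hv j g
    have := congrArg (c * ·) (hv j g)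
    simpa [Finset.mul_sum, mul_assoc] using this

/-- The right-angled Artin group of a graph. -/
abbrev RAAG {V : Type u} (Γ : SimpleGraph V) : Type u :=
  PresentedGroup {r : FreeGroup V | ∃ x y : V, Γ.Adj x y ∧
    r = FreeGroup.of x * FreeGroup.of y * (FreeGroup.of x)⁻¹ * (FreeGroup.of y)⁻¹}

/-- `G` acts by automorphisms on some tree so that no element `≠ 1` of the subgroup `M` fixes a
vertex or inverts an edge. -/
def FreeOnTree {G : Type u} [Group G] (M : Subgroup G) : Prop :=
  ∃ (V : Type u) (T : SimpleGraph V) (a : G →* SimpleGraph.Iso T T), T.IsTree ∧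
    ∀ g ∈ M, g ≠ 1 → (∀ v : V, a g v ≠ v) ∧ ∀ v w : V, T.Adj v w → a g v = w → a g w ≠ v

/-- The action of `G` on `X` is amenable (Følner condition). -/
def AmenableAction (G X : Type u) [Group G] [MulAction G X] : Prop :=
  ∀ (S : Finset G) (ε : ℝ), 0 < ε → ∃ F : Finset X, F.Nonempty ∧
    ∀ s ∈ S, (Set.ncard {x : X | x ∈ F ∧ s • x ∉ F} : ℝ) ≤ ε * F.card

/-- The smallest class of groups that contains all right-angled Artin groups and is closed under
centralising HNN extensions, under extensions whose kernel acts freely on a tree, and under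
amenable actions with stabilisers in the class. -/
inductive InClass : (G : Type u) → [Group G] → Prop
  | raag {V : Type u} (Γ : SimpleGraph V) : InClass (RAAG Γ)
  | hnn {D : Type u} [Group D] (C : Subgroup D) :
      InClass D → InClass (HNNExtension D C C (MulEquiv.refl C))
  | tree {G D : Type u} [Group G] [Group D] (φ : G →* D) :
      FreeOnTree φ.ker → InClass D → InClass G
  | amenable {G : Type u} [Group G] (X : Type u) [MulAction G X] :
      AmenableAction G X → (∀ x : X, InClass (MulAction.stabilizer G x)) → InClass G

end Pool.Agent.MP_c6eade_gt
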