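import Mathlib

/-!
Dimension theory for matrices over the commutant of a star-closed set of operators with a
tracial vector: nullity, rank, moment formula.
-/

namespace Pool.Agent.MP_c6eade_gt

open Filter Topology Matrix
open scoped InnerProductSpace

universe v

/-- A Hilbert space, a star-closed set of operators and a unit vector that is tracial on the
commutant. -/
structure TM where
  H : Type v
  [nac : NormedAddCommGroup H]
  [ips : InnerProductSpace ℂ H]
  [cpl : CompleteSpace H]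
  U : Set (H →L[ℂ] H)
  hU : ∀ u ∈ U, star u ∈ U
  δ : H
  hδ : ‖δ‖ = 1
  tr : ∀ S T : H →L[ℂ] H, (∀ u ∈ U, u * S = S * u) → (∀ u ∈ U, u * T = T * u) →
    ⟪δ, S (T δ)⟫_ℂ = ⟪δ, T (S δ)⟫_ℂ

attribute [instance] TM.nac TM.ips TM.cpl

namespace TM

variable (M : TM.{v})

/-- The commutant. -/
noncomputable def A : StarSubalgebra ℂ (M.H →L[ℂ] M.H) := StarSubalgebra.centralizer ℂ M.U

lemma mem_A {T : M.H →L[ℂ] M.H} : T ∈ M.A ↔ ∀ u ∈ M.U, u * T = T * u := by
  rw [A, StarSubalgebra.mem_centralizer_iff]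
  exact ⟨fun h u hu => (h u hu).1, fun h u hu => ⟨h u hu, h _ (M.hU u hu)⟩⟩

/-- The commutant as a type. -/
abbrev N : Type v := ↥M.A

instance : CompleteSpace M.N := by
  have : IsClosed (M.A : Set (M.H →L[ℂ] M.H)) := by
    rw [A, StarSubalgebra.coe_centralizer]; exact Set.isClosed_centralizer _
  exact this.completeSpace_coe

/-- The trace. -/
noncomputable def τ : M.N →L[ℂ] ℂ :=
  (innerSL ℂ M.δ).comp (((ContinuousLinearMap.apply ℂ M.H) M.δ).comp
    M.A.toSubalgebra.toSubmodule.subtypeL)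

lemma τ_apply (T : M.N) : M.τ T = ⟪M.δ, (T : M.H →L[ℂ] M.H) M.δ⟫_ℂ := rfl

lemma τ_comm (S T : M.N) : M.τ (S * T) = M.τ (T * S) :=
  M.tr S T (M.mem_A.1 S.2) (M.mem_A.1 T.2)

lemma τ_one : M.τ 1 = 1 := by
  rw [τ_apply]
  simp [inner_self_eq_norm_sq_to_K, M.hδ]

/-- Finite powers of the Hilbert space. -/
abbrev Hs (ι : Type) : Type v := PiLp 2 (fun _ : ι => M.H)

variable {M}
variable {ι κ μ : Type} [Fintype ι] [Fintype κ] [Fintype μ]

/-- The operator of a matrix on column vectors. -/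
noncomputable def mop (C : Matrix κ ι M.N) : M.Hs ι →L[ℂ] M.Hs κ :=
  (PiLp.continuousLinearEquiv 2 ℂ (fun _ : κ => M.H)).symm.toContinuousLinearMap.comp
    (ContinuousLinearMap.pi fun k =>
      ∑ i, (C k i : M.H →L[ℂ] M.H).comp (PiLp.proj 2 (fun _ : ι => M.H) i))

lemma mop_apply (C : Matrix κ ι M.N) (v : M.Hs ι) (k : κ) :
    mop C v k = ∑ i, (C k i : M.H →L[ℂ] M.H) (v i) := by
  simp [mop]

lemma mop_mul (C : Matrix μ κ M.N) (D : Matrix κ ι M.N) (v : M.Hs ι) :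
    mop (C * D) v = mop C (mop D v) := by
  ext k
  simp only [mop_apply, Matrix.mul_apply, map_sum]
  rw [Finset.sum_comm]
  refine Finset.sum_congr rfl fun i _ => ?_
  simp

lemma mop_add (C D : Matrix κ ι M.N) (v : M.Hs ι) : mop (C + D) v = mop C v + mop D v := by
  ext k
  simp [mop_apply, Finset.sum_add_distrib]

lemma mop_sub (C D : Matrix κ ι M.N) (v : M.Hs ι) : mop (C - D) v = mop C v - mop D v := by
  ext k
  simp [mop_apply, Finset.sum_sub_distrib]

lemma mop_smul (c : ℂ) (C : Matrix κ ι M.N) (v : M.Hs ι) : mop (c • C) v = c • mop C v := by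
  ext k
  simp [mop_apply, Finset.smul_sum]

lemma mop_one [DecidableEq ι] (v : M.Hs ι) : mop (1 : Matrix ι ι M.N) v = v := by
  ext k
  rw [mop_apply, Finset.sum_eq_single k]
  · simp
  · intro i _ hi; simp [Matrix.one_apply_ne hi.symm]
  · simp

lemma mop_zero (v : M.Hs ι) : mop (0 : Matrix κ ι M.N) v = 0 := by
  ext k; simp [mop_apply]

lemma mop_pow [DecidableEq ι] (C : Matrix ι ι M.N) (n : ℕ) (v : M.Hs ι) :
    mop (C ^ n) v = (mop C)^[n] v := by
  induction n with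
  | zero => simp [mop_one]
  | succ n ih => rw [pow_succ', mop_mul, ih, Function.iterate_succ_apply']

lemma inner_mop_conj (C : Matrix κ ι M.N) (v : M.Hs ι) (w : M.Hs κ) :
    ⟪mop Cᴴ w, v⟫_ℂ = ⟪w, mop C v⟫_ℂ := by
  simp only [PiLp.inner_apply, mop_apply, sum_inner, inner_sum]
  rw [Finset.sum_comm]
  refine Finset.sum_congr rfl fun k _ => Finset.sum_congr rfl fun i _ => ?_
  rw [conjTranspose_apply]
  exact ContinuousLinearMap.adjoint_inner_left _ _ _

lemma mop_inj {C D : Matrix κ ι M.N} (h : ∀ v, mop C v = mop D v) : C = D := by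
  classical
  ext k i x
  have := congrArg (fun w : M.Hs κ => w k) (h (PiLp.single 2 i x))
  simp only [mop_apply] at this
  rw [Finset.sum_eq_single i, Finset.sum_eq_single i] at this
  · simpa using this
  all_goals simp +contextual

lemma sum_single [DecidableEq ι] (v : M.Hs ι) : v = ∑ i, PiLp.single 2 i (v i) := by
  ext k
  simp only [WithLp.ofLp_sum, Finset.sum_apply]
  rw [Finset.sum_eq_single k]
  · simp
  · intro i _ hi; simp [hi]
  · simp

lemma norm_mop_le (C : Matrix κ ι M.N) (v : M.Hs ι) :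
    ‖mop C v‖ ≤ (∑ k, ∑ i, ‖C k i‖) * ‖v‖ := by
  classical
  rw [sum_single (mop C v), Finset.sum_mul]
  refine (norm_sum_le _ _).trans (Finset.sum_le_sum fun k _ => ?_)
  rw [PiLp.norm_single, mop_apply, Finset.sum_mul]
  refine (norm_sum_le _ _).trans (Finset.sum_le_sum fun i _ => ?_)
  refine ((C k i : M.H →L[ℂ] M.H).le_opNorm _).trans ?_
  exact mul_le_mul_of_nonneg_left (PiLp.norm_apply_le v i) (norm_nonneg _)

/-- The trace of a square matrix. -/
noncomputable def ttr (X : Matrix ι ι M.N) : ℂ := M.τ X.trace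

lemma ttr_eq (X : Matrix ι ι M.N) : ttr X = ∑ i, M.τ (X i i) := by
  simp [ttr, Matrix.trace]

lemma ttr_add (X Y : Matrix ι ι M.N) : ttr (X + Y) = ttr X + ttr Y := by simp [ttr]
lemma ttr_sub (X Y : Matrix ι ι M.N) : ttr (X - Y) = ttr X - ttr Y := by simp [ttr]
lemma ttr_smul (c : ℂ) (X : Matrix ι ι M.N) : ttr (c • X) = c * ttr X := by simp [ttr]
lemma ttr_one [DecidableEq ι] : ttr (1 : Matrix ι ι M.N) = Fintype.card ι := by
  simp [ttr_eq, τ_one]

lemma ttr_comm (X : Matrix ι κ M.N) (Y : Matrix κ ι M.N) : ttr (X * Y) = ttr (Y * X) := by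
  simp only [ttr_eq, Matrix.mul_apply, map_sum]
  rw [Finset.sum_comm]
  exact Finset.sum_congr rfl fun k _ => Finset.sum_congr rfl fun i _ => M.τ_comm _ _

/-- The basic vectors. -/
noncomputable def bv (M : TM.{v}) [DecidableEq ι] (i : ι) : M.Hs ι := PiLp.single 2 i M.δ

lemma ttr_eq_inner [DecidableEq ι] (X : Matrix ι ι M.N) :
    ttr X = ∑ i, ⟪bv M i, mop X (bv M i)⟫_ℂ := by
  rw [ttr_eq]
  refine Finset.sum_congr rfl fun i _ => ?_
  rw [PiLp.inner_apply, Finset.sum_eq_single i, mop_apply, Finset.sum_eq_single i]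
  · simp [bv, τ_apply]
  all_goals simp +contextual [bv]

/-- The squared Hilbert-Schmidt norm. -/
noncomputable def hs (X : Matrix κ ι M.N) : ℝ := (ttr (Xᴴ * X)).re

lemma hs_eq [DecidableEq ι] (X : Matrix κ ι M.N) : hs X = ∑ i, ‖mop X (bv M i)‖ ^ 2 := by
  rw [hs, ttr_eq_inner, Complex.re_sum]
  refine Finset.sum_congr rfl fun i _ => ?_
  rw [mop_mul, ← inner_mop_conj, conjTranspose_conjTranspose, inner_self_eq_norm_sq_to_K]
  norm_cast

lemma hs_nonneg (X : Matrix κ ι M.N) : 0 ≤ hs X := by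
  classical
  rw [hs_eq]; positivity

lemma hs_conj (X : Matrix κ ι M.N) : hs Xᴴ = hs X := by
  rw [hs, hs, ttr_comm, conjTranspose_conjTranspose]

lemma hs_mul_le (Y : Matrix μ κ M.N) (X : Matrix κ ι M.N) {b : ℝ}
    (h : ∀ v, ‖mop Y v‖ ≤ b * ‖v‖) : hs (Y * X) ≤ b ^ 2 * hs X := by
  classical
  rw [hs_eq, hs_eq, Finset.mul_sum]
  refine Finset.sum_le_sum fun i _ => ?_
  rw [mop_mul, ← mul_pow]
  exact pow_le_pow_left₀ (norm_nonneg _) (h _) 2

/-- The kernel of the operator of a matrix. -/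
noncomputable def kr (C : Matrix κ ι M.N) : Submodule ℂ (M.Hs ι) := (mop C).ker

lemma mem_kr {C : Matrix κ ι M.N} {v : M.Hs ι} : v ∈ kr C ↔ mop C v = 0 := Iff.rfl

instance (C : Matrix κ ι M.N) : CompleteSpace (kr C) :=
  (ContinuousLinearMap.isClosed_ker (mop C)).completeSpace_coe

lemma diag_mem_kr {C : Matrix κ ι M.N} {u : M.H →L[ℂ] M.H} (hu : u ∈ M.U) {v : M.Hs ι}
    (hv : v ∈ kr C) : (WithLp.toLp 2 fun i => u (v i) : M.Hs ι) ∈ kr C := by
  rw [mem_kr] at hv ⊢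
  ext k
  have h1 := congrArg (fun w : M.Hs κ => u (w k)) hv
  simp only [mop_apply, map_sum] at h1 ⊢
  simp only [PiLp.zero_apply, map_zero] at h1 ⊢
  rw [← h1]
  refine Finset.sum_congr rfl fun i _ => ?_
  exact (congrArg (fun T : M.H →L[ℂ] M.H => T (v i)) (M.mem_A.1 (C k i).2 u hu)).symm

lemma proj_diag (C : Matrix κ ι M.N) {u : M.H →L[ℂ] M.H} (hu : u ∈ M.U) (v : M.Hs ι) :
    (kr C).starProjection (WithLp.toLp 2 fun i => u (v i)) =
      WithLp.toLp 2 fun i => u ((kr C).starProjection v i) := by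
  refine Submodule.eq_starProjection_of_mem_of_inner_eq_zero
    (diag_mem_kr hu (Submodule.starProjection_apply_mem _ v)) fun w hw => ?_
  have h1 := Submodule.starProjection_inner_eq_zero v _ (diag_mem_kr (M.hU u hu) hw)
  rw [← h1]
  simp only [PiLp.inner_apply, PiLp.sub_apply]
  refine Finset.sum_congr rfl fun i _ => ?_
  rw [← map_sub]
  exact (ContinuousLinearMap.adjoint_inner_right _ _ _).symm

open Classical in
/-- The matrix of the orthogonal projection onto the kernel. -/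
noncomputable def pk (C : Matrix κ ι M.N) : Matrix ι ι M.N := Matrix.of fun k i =>
  ⟨(PiLp.proj 2 (fun _ : ι => M.H) k).comp ((kr C).starProjection.comp
    ((PiLp.continuousLinearEquiv 2 ℂ (fun _ : ι => M.H)).symm.toContinuousLinearMap.comp
      (ContinuousLinearMap.single ℂ (fun _ : ι => M.H) i))), by
    rw [mem_A]
    intro u hu
    ext x
    have h := congrArg (fun w : M.Hs ι => w k) (proj_diag C hu (PiLp.single 2 i x))
    have h2 : (WithLp.toLp 2 fun j => u ((PiLp.single 2 i x : M.Hs ι) j) : M.Hs ι) =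
        PiLp.single 2 i (u x) := by
      ext j
      by_cases hj : j = i
      · subst hj; simp
      · simp [hj]
    rw [h2] at h
    exact h.symm⟩

lemma mop_pk (C : Matrix κ ι M.N) (v : M.Hs ι) : mop (pk C) v = (kr C).starProjection v := by
  classical
  ext k
  rw [mop_apply]
  conv_rhs => rw [sum_single v, map_sum]
  simp only [WithLp.ofLp_sum, Finset.sum_apply]
  exact Finset.sum_congr rfl fun i _ => rfl

lemma pk_conj (C : Matrix κ ι M.N) : (pk C)ᴴ = pk C := by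
  refine mop_inj fun v => ext_inner_right ℂ fun w => ?_
  rw [inner_mop_conj, mop_pk, mop_pk, Submodule.inner_starProjection_left_eq_right]

lemma mul_pk (C : Matrix κ ι M.N) : C * pk C = 0 := by
  refine mop_inj fun v => ?_
  rw [mop_mul, mop_pk, mop_zero]
  exact mem_kr.1 (Submodule.starProjection_apply_mem _ v)

lemma pk_mul_of (C : Matrix κ ι M.N) {X : Matrix ι μ M.N} (h : C * X = 0) : pk C * X = X := by
  refine mop_inj fun v => ?_
  rw [mop_mul, mop_pk, Submodule.starProjection_eq_self_iff, mem_kr, ← mop_mul, h, mop_zero]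

lemma pk_mul_pk (C : Matrix κ ι M.N) : pk C * pk C = pk C := pk_mul_of C (mul_pk C)

lemma norm_pk_le (C : Matrix κ ι M.N) (v : M.Hs ι) : ‖mop (pk C) v‖ ≤ 1 * ‖v‖ := by
  rw [mop_pk, one_mul]; exact Submodule.norm_starProjection_apply_le _ _

/-- The nullity. -/
noncomputable def nul (C : Matrix κ ι M.N) : ℝ := (ttr (pk C)).re

/-- The rank. -/
noncomputable def rk (C : Matrix κ ι M.N) : ℝ := Fintype.card ι - nul C

lemma nul_eq_hs (C : Matrix κ ι M.N) : nul C = hs (pk C) := by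
  rw [hs, pk_conj, pk_mul_pk, nul]

lemma nul_nonneg (C : Matrix κ ι M.N) : 0 ≤ nul C := by rw [nul_eq_hs]; exact hs_nonneg _

lemma rk_le_card (C : Matrix κ ι M.N) : rk C ≤ Fintype.card ι := by
  have := nul_nonneg C
  rw [rk]; linarith

lemma nul_le_mul (X : Matrix μ κ M.N) (C : Matrix κ ι M.N) : nul C ≤ nul (X * C) := by
  have h : pk (X * C) * pk C = pk C := pk_mul_of _ (by rw [Matrix.mul_assoc, mul_pk, Matrix.mul_zero])
  have h2 : pk C * pk (X * C) = pk C := by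
    have := congrArg conjTranspose h
    rwa [conjTranspose_mul, pk_conj, pk_conj] at this
  rw [nul_eq_hs, nul_eq_hs, ← h2]
  simpa using hs_mul_le (pk C) (pk (X * C)) (norm_pk_le C)

lemma rk_mul_le_right (X : Matrix μ κ M.N) (C : Matrix κ ι M.N) : rk (X * C) ≤ rk C := by
  have := nul_le_mul X C
  rw [rk, rk]; linarith

/-- The contraction whose powers converge to the kernel projection. -/
noncomputable def ctr [DecidableEq ι] (c : ℝ) (C : Matrix κ ι M.N) : Matrix ι ι M.N :=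
  1 - (c : ℂ) • (Cᴴ * C)

/-- `c` is an admissible step size for `C`. -/
def Adm (c : ℝ) (C : Matrix κ ι M.N) : Prop := 0 < c ∧ ∀ v, c * ‖mop C v‖ ^ 2 ≤ ‖v‖ ^ 2

lemma Adm.conj {c : ℝ} {C : Matrix κ ι M.N} (h : Adm c C) : Adm c Cᴴ := by
  refine ⟨h.1, fun w => ?_⟩
  have h1 : (‖mop Cᴴ w‖ : ℝ) ^ 2 ≤ ‖w‖ * ‖mop C (mop Cᴴ w)‖ := by
    have := inner_mop_conj C (mop Cᴴ w) w
    rw [inner_self_eq_norm_sq_to_K] at this
    have h3 := norm_inner_le_norm (𝕜 := ℂ) w (mop C (mop Cᴴ w))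
    rw [← this] at h3
    simpa using h3
  have h2 := h.2 (mop Cᴴ w)
  set a := ‖mop Cᴴ w‖
  set b := ‖mop C (mop Cᴴ w)‖
  have hb : 0 ≤ b := norm_nonneg _
  have ha : 0 ≤ a := norm_nonneg _
  have hw : 0 ≤ ‖w‖ := norm_nonneg _
  have hc := h.1
  by_cases h0 : a = 0
  · rw [h0]; simp
  have ha' : 0 < a ^ 2 := by positivity
  have h4 : (a ^ 2) ^ 2 ≤ (‖w‖ * b) ^ 2 := pow_le_pow_left₀ ha'.le h1 2
  have h5 : c * a ^ 2 * a ^ 2 ≤ ‖w‖ ^ 2 * a ^ 2 := by nlinarith [sq_nonneg ‖w‖]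
  exact le_of_mul_le_mul_right h5 ha'

lemma adm_of_bound {C : Matrix κ ι M.N} {b : ℝ} (h : ∀ v, ‖mop C v‖ ≤ b * ‖v‖) :
    Adm (1 / (1 + b ^ 2)) C := by
  refine ⟨by positivity, fun v => ?_⟩
  have h1 := pow_le_pow_left₀ (norm_nonneg _) (h v) 2
  rw [mul_pow] at h1
  rw [one_div, inv_mul_le_iff₀ (by positivity)]
  nlinarith [sq_nonneg ‖v‖]

lemma Adm.mono {c c' : ℝ} {C : Matrix κ ι M.N} (h : Adm c C) (h0 : 0 < c') (hc : c' ≤ c) :
    Adm c' C :=
  ⟨h0, fun v => (mul_le_mul_of_nonneg_right hc (by positivity)).trans (h.2 v)⟩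

lemma exists_adm (C : Matrix κ ι M.N) : ∃ c, Adm c C := ⟨_, adm_of_bound (norm_mop_le C)⟩

section ctr
variable [DecidableEq ι] {c : ℝ} {C : Matrix κ ι M.N}

lemma ctr_conj : (ctr c C)ᴴ = ctr c C := by
  simp [ctr, conjTranspose_sub, conjTranspose_smul, conjTranspose_mul]

lemma norm_ctr (h : Adm c C) (v : M.Hs ι) :
    ‖mop (ctr c C) v‖ ^ 2 + c * ‖mop C v‖ ^ 2 ≤ ‖v‖ ^ 2 := by
  rw [ctr, mop_sub, mop_one, mop_smul, mop_mul, @norm_sub_sq ℂ, inner_smul_right,
    ← inner_conj_symm, inner_mop_conj, inner_self_eq_norm_sq_to_K, norm_smul]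
  have h2 := h.conj.2 (mop C v)
  have hc := h.1
  simp only [Complex.coe_algebraMap, map_pow, Complex.conj_ofReal, RCLike.re_to_complex,
    Complex.norm_real, Real.norm_eq_abs, mul_pow, sq_abs]
  have : ((c : ℂ) * (‖mop C v‖ : ℂ) ^ 2).re = c * ‖mop C v‖ ^ 2 := by norm_cast
  rw [this]
  nlinarith

lemma norm_ctr_le (h : Adm c C) (v : M.Hs ι) : ‖mop (ctr c C) v‖ ≤ ‖v‖ := by
  have := norm_ctr h v
  have h1 : 0 ≤ c * ‖mop C v‖ ^ 2 := mul_nonneg h.1.le (by positivity)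
  exact (pow_le_pow_iff_left₀ (norm_nonneg _) (norm_nonneg _) two_ne_zero).1 (by linarith)

lemma ctr_mul_pk : ctr c C * pk C = pk C := by
  rw [ctr, Matrix.sub_mul, Matrix.one_mul, Matrix.smul_mul, Matrix.mul_assoc, mul_pk]
  simp

lemma ctr_pow_mul_pk (n : ℕ) : ctr c C ^ n * pk C = pk C := by
  induction n with
  | zero => simp
  | succ n ih => rw [pow_succ, Matrix.mul_assoc, ctr_mul_pk, ih]

lemma ctr_pow_conj (n : ℕ) : (ctr c C ^ n)ᴴ = ctr c C ^ n := by
  rw [conjTranspose_pow, ctr_conj]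

lemma pk_mul_ctr_pow (n : ℕ) : pk C * ctr c C ^ n = pk C := by
  have := congrArg conjTranspose (ctr_pow_mul_pk (c := c) (C := C) n)
  rwa [conjTranspose_mul, pk_conj, ctr_pow_conj] at this

lemma hs_ctr_pow (n : ℕ) : hs (ctr c C ^ n) = (ttr (ctr c C ^ (2 * n))).re := by
  rw [hs, ctr_pow_conj, ← pow_add, two_mul]

lemma inner_ctr_pow (n : ℕ) (v : M.Hs ι) :
    ⟪v, mop (ctr c C ^ (2 * n)) v⟫_ℂ = (‖mop (ctr c C ^ n) v‖ ^ 2 : ℝ) := by
  rw [two_mul, pow_add, mop_mul, ← inner_mop_conj, ctr_pow_conj, inner_self_eq_norm_sq_to_K]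
  norm_cast

lemma tendsto_norm_ctr (h : Adm c C) (v : M.Hs ι) :
    Tendsto (fun n => ‖mop (ctr c C ^ n) v‖ ^ 2) atTop (𝓝 (‖mop (pk C) v‖ ^ 2)) := by
  have hanti : Antitone fun n => ‖mop (ctr c C ^ n) v‖ ^ 2 := by
    refine antitone_nat_of_succ_le fun n => ?_
    rw [pow_succ' (ctr c C), mop_mul]
    exact pow_le_pow_left₀ (norm_nonneg _) (norm_ctr_le h _) 2
  have hlim := tendsto_atTop_ciInf hanti ⟨0, by rintro _ ⟨n, rfl⟩; positivity⟩
  have hces := hlim.cesaro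
  set f := mop (ctr c C ^ 2) with hf
  have hf1 : ‖f‖ ≤ 1 := by
    refine ContinuousLinearMap.opNorm_le_bound _ zero_le_one fun w => ?_
    rw [hf, pow_two, mop_mul, one_mul]
    exact (norm_ctr_le h _).trans (norm_ctr_le h _)
  have hb := ContinuousLinearMap.tendsto_birkhoffAverage_orthogonalProjection f hf1 v
  have heq : f.eqLocus (1 : M.Hs ι →L[ℂ] M.Hs ι) = kr C := by
    ext w
    rw [LinearMap.mem_eqLocus, mem_kr]
    change f w = w ↔ _
    rw [hf, pow_two, mop_mul]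
    constructor
    · intro hw
      have h1 := norm_ctr h w
      have h2 := norm_ctr_le h (mop (ctr c C) w)
      rw [hw] at h2
      have h3 := pow_le_pow_left₀ (norm_nonneg _) h2 2
      have h4 : c * ‖mop C w‖ ^ 2 ≤ 0 := by linarith
      have h5 : ‖mop C w‖ ^ 2 ≤ 0 := by
        by_contra h6
        have := mul_pos h.1 (not_le.1 h6)
        linarith
      exact norm_eq_zero.1 (pow_eq_zero_iff two_ne_zero |>.1 (le_antisymm h5 (by positivity)))
    · intro hw
      have : mop (ctr c C) w = w := by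
        rw [ctr, mop_sub, mop_one, mop_smul, mop_mul, hw]; simp
      rw [this, this]
  have hb2 : Tendsto (fun n => birkhoffAverage ℂ f _root_.id n v) atTop (𝓝 (mop (pk C) v)) := by
    have e : mop (pk C) v =
        ((f.eqLocus (1 : M.Hs ι →L[ℂ] M.Hs ι)).orthogonalProjectionOnto v : M.Hs ι) := by
      rw [mop_pk]
      simp only [← heq]
      rfl
    rw [e]
    exact hb
  have hb3 := (Complex.continuous_re.tendsto _).comp
    ((tendsto_const_nhds (x := v)).inner (𝕜 := ℂ) hb2)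
  have h6 : (⟪v, mop (pk C) v⟫_ℂ).re = ‖mop (pk C) v‖ ^ 2 := by
    conv_lhs => rw [← pk_mul_pk, mop_mul, ← inner_mop_conj, pk_conj, inner_self_eq_norm_sq_to_K]
    norm_cast
  rw [h6] at hb3
  have h7 := tendsto_nhds_unique hces (hb3.congr fun n => ?_)
  · rwa [h7] at hlim
  · simp only [Function.comp, birkhoffAverage, birkhoffSum, _root_.id, inner_smul_right, inner_sum]
    have : ∀ k, ⟪v, f^[k] v⟫_ℂ = (‖mop (ctr c C ^ k) v‖ ^ 2 : ℝ) := by
      intro k
      rw [hf, ← mop_pow, ← pow_mul, inner_ctr_pow]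
    simp only [this]
    rw [← Complex.ofReal_sum, ← Complex.ofReal_natCast, ← Complex.ofReal_inv,
      ← Complex.ofReal_mul, Complex.ofReal_re]

lemma tendsto_nul (h : Adm c C) :
    Tendsto (fun n => (ttr (ctr c C ^ (2 * n))).re) atTop (𝓝 (nul C)) := by
  simp only [← hs_ctr_pow, nul_eq_hs, hs_eq]
  exact tendsto_finsetSum _ fun i _ => tendsto_norm_ctr h _

lemma hs_mul_ctr_pow (Φ : Matrix μ ι M.N) (n : ℕ) :
    hs (Φ * ctr c C ^ n) = hs (Φ * pk C) + hs (Φ * (ctr c C ^ n - pk C)) := by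
  have e1 : ∀ X : Matrix ι ι M.N, Xᴴ = X → hs (Φ * X) = (ttr (Φᴴ * Φ * (X * X))).re := by
    intro X hX
    rw [hs, conjTranspose_mul, hX, Matrix.mul_assoc, ttr_comm]
    simp only [Matrix.mul_assoc]
  rw [e1 _ (ctr_pow_conj n), e1 _ (pk_conj C), e1 _ (by rw [conjTranspose_sub, ctr_pow_conj, pk_conj]),
    ← Complex.add_re, ← ttr_add, ← Matrix.mul_add]
  simp only [Matrix.mul_sub, Matrix.sub_mul, pk_mul_pk, pk_mul_ctr_pow, ctr_pow_mul_pk]
  congr 3
  abel

lemma nul_le_mom (n : ℕ) : nul C ≤ (ttr (ctr c C ^ (2 * n))).re := by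
  have h := hs_mul_ctr_pow (c := c) (C := C) (1 : Matrix ι ι M.N) n
  simp only [Matrix.one_mul] at h
  rw [← hs_ctr_pow, nul_eq_hs, h]
  linarith [hs_nonneg (ctr c C ^ n - pk C)]

lemma ttr_ctr_pow_conj [DecidableEq κ] (n : ℕ) :
    ttr (ctr c C ^ n) - Fintype.card ι = ttr (ctr c Cᴴ ^ n) - Fintype.card κ := by
  have h1 : ∀ n, C * ctr c C ^ n = ctr c Cᴴ ^ n * C := by
    intro n
    induction n with
    | zero => simp
    | succ n ih =>
      rw [pow_succ, pow_succ, ← Matrix.mul_assoc, ih, Matrix.mul_assoc, Matrix.mul_assoc]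
      congr 1
      simp [ctr, Matrix.mul_sub, Matrix.sub_mul, Matrix.mul_assoc]
  induction n with
  | zero => simp [ttr_one]
  | succ n ih =>
    have e1 : ttr (ctr c C ^ (n + 1)) = ttr (ctr c C ^ n) - c * ttr (Cᴴ * (C * ctr c C ^ n)) := by
      rw [pow_succ', ← ttr_smul, ← ttr_sub]
      congr 1
      simp [ctr, Matrix.sub_mul, Matrix.mul_assoc]
    have e2 : ttr (ctr c Cᴴ ^ (n + 1)) =
        ttr (ctr c Cᴴ ^ n) - c * ttr (ctr c Cᴴ ^ n * C * Cᴴ) := by
      rw [pow_succ, ← ttr_smul, ← ttr_sub]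
      congr 1
      simp [ctr, Matrix.mul_sub, Matrix.mul_assoc]
    rw [e1, e2, h1, ttr_comm Cᴴ]
    linear_combination ih

end ctr

lemma rk_conj (C : Matrix κ ι M.N) : rk Cᴴ = rk C := by
  classical
  obtain ⟨c, hc⟩ := exists_adm C
  have h1 := (tendsto_nul hc).sub_const (Fintype.card ι : ℝ)
  have h2 := (tendsto_nul hc.conj).sub_const (Fintype.card κ : ℝ)
  have h3 := tendsto_nhds_unique h1 (h2.congr fun n => ?_)
  · rw [rk, rk]; linarith
  · have := congrArg Complex.re (ttr_ctr_pow_conj (c := c) (C := C) (2 * n))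
    simpa using this.symm

lemma rk_mul_le_left (X : Matrix μ κ M.N) (C : Matrix κ ι M.N) : rk (X * C) ≤ rk X := by
  rw [← rk_conj, conjTranspose_mul, ← rk_conj X]
  exact rk_mul_le_right _ _

lemma nul_blockDiagonal {o : Type} [Fintype o] [DecidableEq o] (C : o → Matrix κ ι M.N) :
    nul (blockDiagonal C) = ∑ k, nul (C k) := by
  classical
  obtain ⟨c₀, h₀⟩ := exists_adm (blockDiagonal C)
  choose c hc using fun k => exists_adm (C k)
  obtain ⟨c₁, hc₁, hc₂, hc₃⟩ : ∃ c₁ : ℝ, 0 < c₁ ∧ c₁ ≤ c₀ ∧ ∀ k, c₁ ≤ c k := by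
    have h1 : ∀ᶠ x in 𝓝[>] (0 : ℝ), x ≤ c₀ :=
      mem_nhdsWithin_of_mem_nhds (Iic_mem_nhds h₀.1)
    have h2 : ∀ᶠ x in 𝓝[>] (0 : ℝ), ∀ k, x ≤ c k :=
      eventually_all.2 fun k => mem_nhdsWithin_of_mem_nhds (Iic_mem_nhds (hc k).1)
    obtain ⟨x, hx⟩ := (eventually_mem_nhdsWithin.and (h1.and h2)).exists
    exact ⟨x, hx.1, hx.2.1, hx.2.2⟩
  have h1 := tendsto_nul (h₀.mono hc₁ hc₂)
  have h2 := tendsto_finsetSum Finset.univ fun k _ => tendsto_nul ((hc k).mono hc₁ (hc₃ k))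
  refine tendsto_nhds_unique h1 (h2.congr fun n => ?_)
  have e : ctr c₁ (blockDiagonal C) = blockDiagonal fun k => ctr c₁ (C k) := by
    simp only [ctr]
    rw [blockDiagonal_conjTranspose, ← blockDiagonal_mul, ← blockDiagonal_smul, ← blockDiagonal_one,
      ← blockDiagonal_sub]
    rfl
  rw [e, ← blockDiagonal_pow, ttr, trace_blockDiagonal, map_sum, Complex.re_sum]
  rfl

lemma rk_blockDiagonal {o : Type} [Fintype o] [DecidableEq o] (C : o → Matrix κ ι M.N) :
    rk (blockDiagonal C) = ∑ k, rk (C k) := by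
  simp only [rk, nul_blockDiagonal, Finset.sum_sub_distrib, Fintype.card_prod]
  simp [mul_comm]

lemma rk_sum_le {o : Type} [Fintype o] (C : o → Matrix κ ι M.N) :
    rk (∑ k, C k) ≤ ∑ k, rk (C k) := by
  classical
  have e : ∑ k, C k = (1 : Matrix κ κ M.N).submatrix _root_.id (Prod.fst : κ × o → κ) *
      (blockDiagonal C * (1 : Matrix ι ι M.N).submatrix (Prod.fst : ι × o → ι) _root_.id) := by
    ext a b : 2
    simp [Matrix.mul_apply, Fintype.sum_prod_type, Matrix.one_apply, blockDiagonal_apply,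
      Matrix.sum_apply]
  rw [e, ← rk_blockDiagonal]
  exact (rk_mul_le_right _ _).trans (rk_mul_le_left _ _)

lemma rk_add_le (X Y : Matrix κ ι M.N) : rk (X + Y) ≤ rk X + rk Y := by
  simpa using rk_sum_le (fun b : Bool => if b then X else Y)

lemma rk_smul_le (c : ℂ) (X : Matrix κ ι M.N) : rk (c • X) ≤ rk X := by
  classical
  have : c • X = (c • (1 : Matrix κ κ M.N)) * X := by simp
  rw [this]; exact rk_mul_le_right _ _

lemma rk_zero_le : rk (0 : Matrix κ ι M.N) ≤ 0 := by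
  have : (0 : Matrix κ ι M.N) = (0 : Matrix κ Empty M.N) * (0 : Matrix Empty ι M.N) := by simp
  rw [this]
  simpa using (rk_mul_le_left (0 : Matrix κ Empty M.N) (0 : Matrix Empty ι M.N)).trans
    (rk_le_card _)

/-- A matrix with `Φ Φᴴ = m` that maps the range of one projection into the range of another. -/
lemma hs_mul_proj_le [DecidableEq κ] (Φ : Matrix κ ι M.N) (P : Matrix ι ι M.N)
    (Q : Matrix κ κ M.N) (m : ℝ) (hΦ : Φ * Φᴴ = (m : ℂ) • (1 : Matrix κ κ M.N))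
    (hP : Pᴴ = P) (hP1 : ∀ v, ‖mop P v‖ ≤ 1 * ‖v‖) (hQ : Qᴴ = Q) (hQ2 : Q * Q = Q)
    (h : Q * (Φ * P) = Φ * P) : hs (Φ * P) ≤ m * (ttr Q).re := by
  rw [← h, ← hs_conj, conjTranspose_mul, conjTranspose_mul, hP, hQ, Matrix.mul_assoc]
  refine (hs_mul_le P _ hP1).trans (le_of_eq ?_)
  rw [hs, conjTranspose_mul, conjTranspose_conjTranspose, hQ, Matrix.mul_assoc,
    ← Matrix.mul_assoc Φ, hΦ, Matrix.smul_mul, Matrix.mul_smul, Matrix.one_mul, hQ2, ttr_smul]
  simp

end TM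

end Pool.Agent.MP_c6eade_gt
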